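import Pool.Agent.H43.PV.Main

set_option autoImplicit false

namespace Pool.Agent.Results.MP_36c61b_al.LocallyNilpotentSubvariety

/-- A variety of profinite groups: a non-empty class of profinite groups which contains, with a
group, all profinite groups that embed into it by an injective continuous homomorphism (the closed
subgroups) and all profinite groups onto which it maps by a surjective continuous homomorphism (the
quotients by closed normal subgroups), and which contains all Cartesian products of its members. -/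
structure IsVariety (V : Set ProfiniteGrp.{0}) : Prop where
  nonempty : V.Nonempty
  sub : ∀ G ∈ V, ∀ (H : ProfiniteGrp.{0}) (f : H →ₜ* G), Function.Injective f → H ∈ V
  quot : ∀ G ∈ V, ∀ (H : ProfiniteGrp.{0}) (f : G →ₜ* H), Function.Surjective f → H ∈ V
  prod : ∀ (I : Type) (G : I → ProfiniteGrp.{0}), (∀ i, G i ∈ V) →
    ProfiniteGrp.of ((i : I) → G i) ∈ V

/-- `G` is a pro-`p` group: its quotients by open normal subgroups are `p`-groups. -/
def IsProP (p : ℕ) (G : ProfiniteGrp.{0}) : Prop :=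
  ∀ N : OpenNormalSubgroup G, IsPGroup p (G ⧸ N.toSubgroup)

/-- `G` is topologically finitely generated. -/
def TopFG (G : ProfiniteGrp.{0}) : Prop :=
  ∃ S : Set G, S.Finite ∧ (Subgroup.closure S).topologicalClosure = ⊤

/-- Some normal subgroup `N` of `G` is abelian of exponent dividing `p`, and so is `G ⧸ N`. -/
def ElemByElem (p : ℕ) (G : ProfiniteGrp.{0}) : Prop :=
  ∃ N : Subgroup G, N.Normal ∧ (∀ x ∈ N, ∀ y ∈ N, x * y = y * x) ∧ (∀ x ∈ N, x ^ p = 1) ∧
    (∀ x y : G, x * y * x⁻¹ * y⁻¹ ∈ N) ∧ (∀ x : G, x ^ p ∈ N)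

/-! ### Topological preliminaries -/

private lemma quot_totallyDisconnected {G : Type} [Group G] [TopologicalSpace G]
    [IsTopologicalGroup G] [CompactSpace G] [TotallyDisconnectedSpace G] (N : Subgroup G)
    [N.Normal] (hN : IsClosed (N : Set G)) : TotallyDisconnectedSpace (G ⧸ N) := by
  have key : ∀ a : G, a ∉ N → ∃ C : Subgroup (G ⧸ N), IsOpen (C : Set (G ⧸ N)) ∧
      (a : G ⧸ N) ∉ C := by
    intro a ha
    have ho : IsOpen {g : G | a * g ∉ N} := by
      have := hN.isOpen_compl.preimage (continuous_const_mul a)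
      exact this
    obtain ⟨O, hO⟩ := ProfiniteGrp.exist_openNormalSubgroup_sub_open_nhds_of_one ho
      (by simpa using ha)
    refine ⟨O.toSubgroup.map (QuotientGroup.mk' N), ?_, ?_⟩
    · have h1 := QuotientGroup.isOpenMap_coe (N := N) _ O.isOpen'
      exact h1
    · rintro ⟨o, ho1, ho2⟩
      have h2 : (o : G ⧸ N) = (a : G ⧸ N) := ho2
      have h3 : o⁻¹ * a ∈ N := QuotientGroup.eq.1 h2
      have h4 : o⁻¹ ∈ O.toSubgroup := O.toSubgroup.inv_mem ho1
      have h5 : a * o⁻¹ ∉ N := hO h4
      apply h5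
      have h6 : a * (o⁻¹ * a) * a⁻¹ ∈ N := (inferInstance : N.Normal).conj_mem _ h3 a
      have e : a * (o⁻¹ * a) * a⁻¹ = a * o⁻¹ := by group
      rwa [e] at h6
  have : TotallySeparatedSpace (G ⧸ N) := by
    rw [totallySeparatedSpace_iff_exists_isClopen]
    intro x y hxy
    obtain ⟨a, ha⟩ := QuotientGroup.mk_surjective (x⁻¹ * y)
    have ha' : a ∉ N := by
      intro h
      rw [(QuotientGroup.eq_one_iff a).2 h] at ha
      exact hxy (inv_mul_eq_one.1 ha.symm)
    obtain ⟨C, hC, haC⟩ := key a ha'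
    refine ⟨(fun z => x⁻¹ * z) ⁻¹' (C : Set (G ⧸ N)), ?_, ?_, ?_⟩
    · have hcl : IsClopen (C : Set (G ⧸ N)) := ⟨C.isClosed_of_isOpen hC, hC⟩
      exact hcl.preimage (continuous_const_mul _)
    · simp
    · intro h
      apply haC
      rw [ha]
      exact h
  infer_instance

private lemma transfer_iso {G H : Type} [Group G] [TopologicalSpace G] [Group H]
    [TopologicalSpace H] (e : G ≃ₜ* H) [IsTopologicalGroup G] : IsTopologicalGroup H := by
  have h : Topology.IsInducing (e.symm : H → G) := e.symm.toHomeomorph.isInducing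
  exact h.topologicalGroup (e.symm.toMulEquiv.toMonoidHom)

/-! ### Bridge -/

/-- The class of topological groups belonging to a class of profinite groups. -/
private def cls (V : Set ProfiniteGrp.{0}) : H89.ProP.GroupClass := fun G _ _ =>
  ∃ (_ : IsTopologicalGroup G) (_ : CompactSpace G) (_ : TotallyDisconnectedSpace G),
    ProfiniteGrp.of G ∈ V

private lemma cls_variety {V : Set ProfiniteGrp.{0}} (hV : IsVariety V) :
    H89.ProP.IsVariety (cls V) := by
  constructor
  · rintro G _ _ ⟨h1, h2, h3, -⟩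
    exact ⟨h1, h2, h3, inferInstance⟩
  · rintro G H _ _ _ _ ⟨e⟩ ⟨h1, h2, h3, h4⟩
    have g1 : IsTopologicalGroup H := transfer_iso e
    have g2 : CompactSpace H := e.toHomeomorph.compactSpace
    have g3 : TotallyDisconnectedSpace H := e.toHomeomorph.totallyDisconnectedSpace
    refine ⟨g1, g2, g3, hV.sub _ h4 (ProfiniteGrp.of H) (e.symm : H →ₜ* G) e.symm.injective⟩
  · rintro G _ _ ⟨h1, h2, h3, h4⟩ H hH
    have g2 : CompactSpace H := isCompact_iff_compactSpace.1 hH.isCompact
    refine ⟨inferInstance, g2, inferInstance, hV.sub _ h4 (ProfiniteGrp.of H)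
      ⟨H.subtype, continuous_subtype_val⟩ H.subtype_injective⟩
  · rintro G _ _ ⟨h1, h2, h3, h4⟩ N hN hNc
    have g3 := quot_totallyDisconnected N hNc
    refine ⟨inferInstance, inferInstance, g3, hV.quot _ h4 (ProfiniteGrp.of (G ⧸ N))
      ⟨QuotientGroup.mk' N, QuotientGroup.continuous_mk⟩ (QuotientGroup.mk'_surjective N)⟩
  · intro I H _ _ hH
    choose h1 h2 h3 h4 using hH
    exact ⟨inferInstance, inferInstance, inferInstance,
      hV.prod I (fun i => ProfiniteGrp.of (H i)) h4⟩

private lemma variety_of {U : H89.ProP.GroupClass} (hU : H89.ProP.IsVariety U) :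
    IsVariety {G : ProfiniteGrp.{0} | U G} := by
  constructor
  · refine ⟨ProfiniteGrp.of ((i : Empty) → (PUnit : Type)), ?_⟩
    exact hU.pi Empty (fun _ => PUnit) (fun i => i.elim)
  · intro G hG H f hf
    have hc : IsClosed (f.toMonoidHom.range : Set G) := by
      rw [MonoidHom.coe_range]
      exact (isCompact_range f.continuous_toFun).isClosed
    have h1 := hU.sub G hG f.toMonoidHom.range hc
    let e0 : H ≃* f.toMonoidHom.range := f.toMonoidHom.ofInjective hf
    have hcont : Continuous e0 := Continuous.subtype_mk f.continuous_toFun _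
    let e : H ≃ₜ* f.toMonoidHom.range :=
      { e0 with
        continuous_toFun := hcont
        continuous_invFun := (Continuous.homeoOfEquivCompactToT2 (f := e0.toEquiv) hcont).symm.continuous }
    exact hU.iso _ _ ⟨e.symm⟩ h1
  · intro G hG H f hf
    have hc : IsClosed (f.toMonoidHom.ker : Set G) := by
      have h := isClosed_singleton (x := (1 : H)).preimage f.continuous_toFun
      exact h
    have h1 := hU.quot G hG f.toMonoidHom.ker hc
    let e0 : G ⧸ f.toMonoidHom.ker ≃* H := QuotientGroup.quotientKerEquivOfSurjective _ hf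
    have hcont : Continuous e0 := Continuous.quotient_lift f.continuous_toFun _
    let e : G ⧸ f.toMonoidHom.ker ≃ₜ* H :=
      { e0 with
        continuous_toFun := hcont
        continuous_invFun := (Continuous.homeoOfEquivCompactToT2 (f := e0.toEquiv) hcont).symm.continuous }
    exact hU.iso _ _ ⟨e⟩ h1
  · intro I G hG
    exact hU.pi I (fun i => G i) hG

private lemma proP_cls {p : ℕ} (hp : p.Prime) {V : Set ProfiniteGrp.{0}}
    (hVp : ∀ G ∈ V, IsProP p G) : H89.ProP.IsProP p (cls V) := by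
  rintro G _ _ ⟨h1, h2, h3, h4⟩ N hN hNn
  have hfac : Fact p.Prime := ⟨hp⟩
  have h5 := hVp _ h4 ⟨⟨N, hN⟩, hNn⟩
  have h6 : Finite (G ⧸ N) := Subgroup.quotient_finite_of_isOpen N hN
  obtain ⟨k, hk⟩ := IsPGroup.iff_card.1 h5
  exact ⟨k, hk⟩

private lemma topFG_iff (G : ProfiniteGrp.{0}) : TopFG G ↔ H89.ProP.TopFG G := by
  constructor
  · rintro ⟨S, hS, h⟩
    refine ⟨hS.toFinset, ?_⟩
    have h1 := congrArg (fun K : Subgroup G => (K : Set G)) h
    simpa using h1
  · rintro ⟨s, hs⟩
    refine ⟨s, s.finite_toSet, ?_⟩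
    apply SetLike.coe_injective
    simpa using hs

private lemma eev_eq (p : ℕ) (V : Set ProfiniteGrp.{0}) :
    {G : ProfiniteGrp.{0} | H89.ProP.EEV p (cls V) G} = {G | G ∈ V ∧ ElemByElem p G} := by
  ext G
  constructor
  · rintro ⟨⟨_, _, _, h⟩, h2⟩
    exact ⟨h, h2⟩
  · rintro ⟨h, h2⟩
    exact ⟨⟨inferInstance, inferInstance, inferInstance, h⟩, h2⟩

private lemma cls_eq (V : Set ProfiniteGrp.{0}) :
    {G : ProfiniteGrp.{0} | cls V G} = V := by
  ext G
  constructor
  · rintro ⟨_, _, _, h⟩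
    exact h
  · intro h
    exact ⟨inferInstance, inferInstance, inferInstance, h⟩

/-- A nilpotent group in a class of topological groups, as a profinite group. -/
private lemma not_nilp_cls {U : H89.ProP.GroupClass} (hU : H89.ProP.IsVariety U)
    (h : ¬ H89.ProP.Nilp U) : ∃ G : ProfiniteGrp.{0}, U G ∧ ¬ Group.IsNilpotent G := by
  by_contra hcon
  push Not at hcon
  apply h
  intro G _ _ hG
  obtain ⟨h1, h2, h3, h4⟩ := hU.profinite G hG
  exact hcon (ProfiniteGrp.of G) hG

/-- **Every non-nilpotent variety `V` of pro-`p` groups contains a variety `U` which is locally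
nilpotent but not nilpotent.** Moreover `U` can be taken to be `V` itself or the class of the groups
in `V` which are (elementary abelian)-by-(elementary abelian), unless the groups of the latter class
are nilpotent of class at most `p ^ k` for some `k` and, for the least such `k`, some group in `V` is
infinite, topologically finitely generated and of exponent dividing `p ^ k`. -/
theorem result (p : ℕ) (hp : p.Prime) (V : Set ProfiniteGrp.{0}) (hV : IsVariety V)
    (hVp : ∀ G ∈ V, IsProP p G) (hn : ∃ G ∈ V, ¬ Group.IsNilpotent G) :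
    ∃ U : Set ProfiniteGrp.{0}, IsVariety U ∧ U ⊆ V ∧
      (∀ G ∈ U, TopFG G → Group.IsNilpotent G) ∧ (∃ G ∈ U, ¬ Group.IsNilpotent G) ∧
      (U = V ∨ U = {G | G ∈ V ∧ ElemByElem p G} ∨
        ∃ k : ℕ, IsLeast {k : ℕ | ∀ G ∈ V, ElemByElem p G →
            (⊤ : Subgroup G).lowerCentralSeries (p ^ k) = ⊥} k ∧
          ∃ G ∈ V, TopFG G ∧ Infinite G ∧ ∀ x : G, x ^ (p ^ k) = 1) := by
  have hV' := cls_variety hV
  have hVp' := proP_cls hp hVp
  have hn' : ¬ H89.ProP.Nilp (cls V) := by
    intro h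
    obtain ⟨G, hG, hG'⟩ := hn
    exact hG' (h G ⟨inferInstance, inferInstance, inferInstance, hG⟩)
  have build : ∀ U : H89.ProP.GroupClass, H89.ProP.IsVariety U →
      (∀ (G : Type) [Group G] [TopologicalSpace G], U G → cls V G) → H89.ProP.LocNilp U →
      ¬ H89.ProP.Nilp U →
      IsVariety {G : ProfiniteGrp.{0} | U G} ∧ {G : ProfiniteGrp.{0} | U G} ⊆ V ∧
      (∀ G ∈ {G : ProfiniteGrp.{0} | U G}, TopFG G → Group.IsNilpotent G) ∧
      (∃ G ∈ {G : ProfiniteGrp.{0} | U G}, ¬ Group.IsNilpotent G) := by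
    intro U hU hUV hUl hUn
    refine ⟨variety_of hU, ?_, ?_, not_nilp_cls hU hUn⟩
    · intro G hG
      obtain ⟨_, _, _, h⟩ := hUV G hG
      exact h
    · intro G hG hfg
      exact hUl G hG ((topFG_iff G).1 hfg)
  rcases H89.ProP.trichotomy hp hV' hVp' with h | h | h
  · obtain ⟨h1, h2, h3, h4⟩ := build _ (H89.ProP.isVariety_EEV hV') (fun G _ _ hG => hG.1)
      (H89.ProP.locNilp_EEV hp hV' hVp') h
    refine ⟨_, h1, h2, h3, h4, Or.inr (Or.inl (eev_eq p V))⟩
  · obtain ⟨h1, h2, h3, h4⟩ := build _ hV' (fun G _ _ hG => hG) h hn'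
    refine ⟨_, h1, h2, h3, h4, Or.inl (cls_eq V)⟩
  · obtain ⟨U, hU, hUV, hUl, hUn⟩ := H43.PV.main hp hV' hVp' hn'
    obtain ⟨h1, h2, h3, h4⟩ := build U hU hUV hUl hUn
    refine ⟨_, h1, h2, h3, h4, Or.inr (Or.inr ?_)⟩
    obtain ⟨k, hk, G, _, _, ⟨g1, g2, g3, g4⟩, hfg, hinf, hexp⟩ := h
    refine ⟨k, ?_, ProfiniteGrp.of G, g4, (topFG_iff _).2 hfg, hinf, hexp⟩
    convert hk using 1
    ext m
    constructor
    · rintro hm G _ _ ⟨⟨e1, e2, e3, e4⟩, hE⟩
      exact hm (ProfiniteGrp.of G) e4 hE
    · intro hm G hG hE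
      exact hm G ⟨⟨inferInstance, inferInstance, inferInstance, hG⟩, hE⟩

end Pool.Agent.Results.MP_36c61b_al.LocallyNilpotentSubvariety
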